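import Mathlib
import Pool.Agent.Lib.MP_e8b094_gt.Main

/-!
# Mean width (first intrinsic volume) of central sections of the cube

For a unit vector `u` of `R^n`, `n ≥ 2`, let `C_u` be the section of the cube `[-1,1]^n` by the
hyperplane orthogonal to `u`. We determine the minimum and the maximum of the first intrinsic
volume `V_1(C_u)` over all `u`, with all extremisers:

`2 (n - 1) ≤ V_1(C_u) ≤ 2 (n - 2) + 2 √2`,

with equality on the left exactly for the coordinate directions and equality on the right exactly
for the vectors with two coordinates of absolute value `1/√2`.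

Sketch of the proof. In terms of a standard Gaussian vector, `V_1(C_u) = √(2π) E h(g)` with `h` the
support function of `C_u`, and the duality `h(x) = min_t ∑ |x_i - t u_i|` gives
`V_1(C_u) = 2 n - 2 √(2π) ∫_0^∞ F(s) ds`, where `F(s) = E (∑ u_i ε_i)_+` for independent signs with
`E ε_i = - erf (s u_i / √2)`. The maximum follows from a pointwise lower bound for `F` (Jensen's
inequality, Szarek's inequality, convexity properties of the logarithm of the Gaussian tail and
Pólya's inequality for the error function). The minimum follows from the comparison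
`tanh (√(2/π) x) ≤ erf (x/√2)` and upper bounds for `E |∑ u_i ε_i|`.
-/

namespace Pool.Agent.Results.MP_e8b094_gt.MeanWidth

open MeasureTheory Filter Topology Pointwise

/-- the central section of the cube `[-1,1]^n` orthogonal to `u` -/
def cubeSection {n : ℕ} (u : EuclideanSpace ℝ (Fin n)) : Set (EuclideanSpace ℝ (Fin n)) :=
  {x | (∀ i, |x i| ≤ 1) ∧ inner ℝ x u = 0}

/-- the volume of the unit ball of `R^m` -/
noncomputable def kappa (m : ℕ) : ℝ :=
  (volume (Metric.ball (0 : EuclideanSpace ℝ (Fin m)) 1)).toReal

/-- the volume of `K + t B`, where `B` is the closed unit ball of `R^n` -/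
noncomputable def parallelVolume {n : ℕ} (K : Set (EuclideanSpace ℝ (Fin n))) (t : ℝ) : ℝ :=
  (volume (K + Metric.closedBall (0 : EuclideanSpace ℝ (Fin n)) t)).toReal

theorem result (n : ℕ) (hn : 2 ≤ n) :
    ∃ V : EuclideanSpace ℝ (Fin n) → ℝ, ∀ u : EuclideanSpace ℝ (Fin n), ‖u‖ = 1 →
      -- `V u` is the first intrinsic volume of the section, as a limit
      Tendsto (fun t : ℝ => (parallelVolume (cubeSection u) t - kappa n * t ^ n) /
        (kappa (n - 1) * t ^ (n - 1))) atTop (𝓝 (V u)) ∧
      -- and it is the coefficient `v 1` of every Steiner formula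
      (∀ v : ℕ → ℝ, (∀ t : ℝ, 0 ≤ t → parallelVolume (cubeSection u) t =
          ∑ j ∈ Finset.range (n + 1), kappa (n - j) * v j * t ^ (n - j)) → v 1 = V u) ∧
      -- sharp bounds
      2 * ((n : ℝ) - 1) ≤ V u ∧ V u ≤ 2 * ((n : ℝ) - 2) + 2 * √2 ∧
      -- all minimisers and all maximisers
      (V u = 2 * ((n : ℝ) - 1) ↔ ∃ i, |u i| = 1) ∧
      (V u = 2 * ((n : ℝ) - 2) + 2 * √2 ↔ ∃ i j, i ≠ j ∧ |u i| = 1 / √2 ∧ |u j| = 1 / √2) :=
  CubeWidth.main_theorem n hn

end Pool.Agent.Results.MP_e8b094_gt.MeanWidth
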