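import Mathlib
import Pool.Agent.Lib.MP_e8b094_gt.MinAsm

/-!
# The minimum of every intrinsic volume of central sections of the cube

For a unit vector `u` of `R^n`, `n ≥ 2`, let `C_u` be the section of the cube `[-1,1]^n` by the
hyperplane orthogonal to `u`. We determine the minimum of every intrinsic volume `V_k(C_u)`,
`1 ≤ k ≤ n - 3`, over all `u`, together with all minimisers: the minimum is
`2^k * (n-1).choose k`, attained exactly at the coordinate directions. This follows from the chain
of sharp inequalities `(k + 1) V_{k+1}(C_u) ≥ 2 (n - 1 - k) V_k(C_u)`, `0 ≤ k ≤ n - 2`.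

Sketch of the proof. In the coordinates `x = y + s u + r`, `y` the nearest point of `C_u` to `x`,
`r` an outer normal of the cube at `y`, the intrinsic volume `V_k` is a Gaussian integral over
`s`, the faces of the cube and the normals, and `(k + 1) V_{k+1}` is the integral of the same
measure against the sum of the absolute values of the coordinates of `r` (the support function). The
chain is then a consequence of a correlation inequality for independent biased signs: if
`P(ε_l = +) = Q(v_l)` with `Q` the Gaussian tail and `w(x) = E(|g - x| given g > x) - √(2/π)`, then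
`E f(∑ ε_l v_l) ∑ w(ε_l v_l) ≥ 0` for every even `f ≥ 0` which is nonincreasing in the absolute
value. The case of equality uses the strict inequality for `k = 1` (mean width).
-/

namespace Pool.Agent.Results.MP_e8b094_gt.MinAllK

open MeasureTheory Filter Topology Pointwise

/-- the central section of the cube `[-1,1]^n` orthogonal to `u` -/
def cubeSection {n : ℕ} (u : EuclideanSpace ℝ (Fin n)) : Set (EuclideanSpace ℝ (Fin n)) :=
  {x | (∀ i, |x i| ≤ 1) ∧ inner ℝ x u = 0}

/-- the volume of the unit ball of `R^m` -/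
noncomputable def kappa (m : ℕ) : ℝ :=
  (volume (Metric.ball (0 : EuclideanSpace ℝ (Fin m)) 1)).toReal

/-- the volume of `K + t B`, where `B` is the closed unit ball of `R^n` -/
noncomputable def parallelVolume {n : ℕ} (K : Set (EuclideanSpace ℝ (Fin n))) (t : ℝ) : ℝ :=
  (volume (K + Metric.closedBall (0 : EuclideanSpace ℝ (Fin n)) t)).toReal

/-- `v 0, ..., v n` are the intrinsic volumes of `K`: Steiner formula in `R^n`. -/
def IsIntrinsicVolumes {n : ℕ} (K : Set (EuclideanSpace ℝ (Fin n))) (v : ℕ → ℝ) : Prop :=
  ∀ t : ℝ, 0 ≤ t →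
    parallelVolume K t = ∑ j ∈ Finset.range (n + 1), kappa (n - j) * v j * t ^ (n - j)

theorem result (n : ℕ) (hn : 2 ≤ n) :
    ∃ V : EuclideanSpace ℝ (Fin n) → ℕ → ℝ, ∀ u : EuclideanSpace ℝ (Fin n), ‖u‖ = 1 →
      -- `V u k` is the `k`-th intrinsic volume of the section: Steiner formula, and the
      -- coefficients are unique
      IsIntrinsicVolumes (cubeSection u) (V u) ∧
      (∀ v : ℕ → ℝ, IsIntrinsicVolumes (cubeSection u) v → ∀ k ≤ n, v k = V u k) ∧
      -- chain of inequalities
      (∀ k, k + 1 < n → 2 * ((n : ℝ) - 1 - k) * V u k ≤ ((k : ℝ) + 1) * V u (k + 1)) ∧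
      -- sharp lower bound for `V_k`, `k ≤ n - 3`
      (∀ k, k + 2 < n → 2 ^ k * ((n - 1).choose k : ℝ) ≤ V u k) ∧
      -- all minimisers
      (∀ k, 1 ≤ k → k + 2 < n → (V u k = 2 ^ k * ((n - 1).choose k : ℝ) ↔ ∃ i, |u i| = 1)) := by
  obtain ⟨V, hV⟩ := CubeWidth.main_min n hn
  refine ⟨V, fun u hu => ?_⟩
  obtain ⟨h1, h2, h3, h4, h5⟩ := hV u hu
  exact ⟨h1, h2, h3, fun k hk => h4 k (by omega), fun k hk1 hk => h5 k hk1 (by omega)⟩

end Pool.Agent.Results.MP_e8b094_gt.MinAllK
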